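import Pool.Agent.H32.FvD

set_option autoImplicit false

open Pool.Agent.H32.Fv in
theorem Pool.Agent.Results.MP_e983f0_al.Counter.result :
    ∃ (G : Type) (_ : Group G), Nat.card G = 500 ∧
      (∃ N : Fin (5 + 1) → Subgroup G, IsChiefSeries N) ∧
      ∀ F : IntermediateField ℚ ℂ, {χ | χ ∈ Irr G ∧ fieldOf χ = F}.encard ≤ 4 :=
  ⟨Pool.Agent.H32.Fv.G, inferInstance, cardG, ⟨N, chief⟩, bound⟩
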